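import Pool.Agent.H174.Polyan

/-!
# Zero products of Toeplitz operators on polyanalytic Bergman spaces

For every `n ≥ 1` and all bounded `f`, `g` on the unit disc, one of them radial, `T_f T_g = 0` on
the polyanalytic Bergman space `A²_n` implies `f = 0` or `g = 0`.

Proof.  Let `b` be the radial one of `conj f`, `g` and `a` the other one; the hypothesis says that
`P(b k)` is orthogonal to `P(a h)` for all `h, k` in `A²_n`.  On the functions
`z^{l+s} conj z^s`, `s < n`, the compression of `b` is given by the Hankel matrix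
`[m(l+s+q)]_{s,q<n}`, `m(x) = ∫ b |z|^{2x} dA`; if its determinant `D(l)` does not vanish, some `k`
has `P(b k) = z^l`, and so `∫ a z^p conj z^l dA = 0` for all `p`.  Hence
`D(l) ∫ a z^p conj z^l dA = 0` for all `l, p`.  Along each diagonal this is a moment sequence of an
integral over the product of `n + 1` discs, so by the Weierstrass theorem the product
`D(l+x) ∫ a z^p conj z^l |z|^{2x} dA` vanishes for all real `x > 0`, and by analyticity one factor
vanishes identically.  If `D = 0` identically, take the least `n` with this property: the kernel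
vectors of the Hankel matrices at `x, x+1, x+2, ...` coincide, so `b |z|^{2x} Q(|z|^2)` has all
moments zero for a nonzero polynomial `Q`, and `b = 0`.
-/

open MeasureTheory
open scoped ENNReal ComplexConjugate

namespace Pool.Agent.Results.MP_119a45_an.ZeroProduct

/-- Normalised area measure on the open unit disc. -/
noncomputable def dA : Measure ℂ :=
  (ENNReal.ofReal Real.pi)⁻¹ • (volume : Measure ℂ).restrict (Metric.ball 0 1)

/-- `L^∞` of the disc. -/
def Linf : Type := Lp ℂ ∞ dA

/-- The function represented by an element of `L^∞`. -/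
noncomputable def Linf.fn (f : Linf) : ℂ → ℂ := ((show Lp ℂ ∞ dA from f) : ℂ → ℂ)

/-- `L²` of the disc. -/
def Ltwo : Type := Lp ℂ 2 dA

noncomputable instance instLtwoNACG : NormedAddCommGroup Ltwo :=
  Lp.instNormedAddCommGroup (p := 2) (μ := dA) (E := ℂ)

noncomputable instance instLtwoIPS : InnerProductSpace ℂ Ltwo :=
  L2.innerProductSpace (𝕜 := ℂ) (μ := dA) (E := ℂ)

instance instLtwoComplete : CompleteSpace Ltwo :=
  inferInstanceAs (CompleteSpace (Lp ℂ 2 dA))

/-- The function represented by an element of `L²`. -/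
noncomputable def Ltwo.fn (h : Ltwo) : ℂ → ℂ := ((show Lp ℂ 2 dA from h) : ℂ → ℂ)

lemma mul_memLp (f : Linf) (h : Ltwo) : MemLp (fun z => f.fn z * h.fn z) 2 dA :=
  (memLp_congr_ae (Pool.Agent.H174.Polyan.mulOp_coe f h)).1
    (Lp.memLp (Pool.Agent.H174.Polyan.mulOp f h))

/-- The product `f h ∈ L²` of `f ∈ L^∞` and `h ∈ L²`. -/
noncomputable def mul (f : Linf) (h : Ltwo) : Ltwo :=
  MemLp.toLp (fun z => f.fn z * h.fn z) (mul_memLp f h)

/-- The polyanalytic functions of order `n` in `L²` of the disc: the `h ∈ L²` of the form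
`∑_{q < n} conj z ^ q * H_q z` with `H_q` holomorphic in the disc. -/
noncomputable def polyanalytic (n : ℕ) : Submodule ℂ Ltwo where
  carrier := {h | ∃ H : Fin n → ℂ → ℂ, (∀ q, DifferentiableOn ℂ (H q) (Metric.ball 0 1)) ∧
    ∀ᵐ z ∂dA, h.fn z = ∑ q : Fin n, conj z ^ (q : ℕ) * H q z}
  add_mem' := fun {a b} ha hb => (Pool.Agent.H174.Polyan.polyan n).add_mem' (a := a) (b := b) ha hb
  zero_mem' := (Pool.Agent.H174.Polyan.polyan n).zero_mem'
  smul_mem' := fun c a ha => (Pool.Agent.H174.Polyan.polyan n).smul_mem' c (x := a) ha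

/-- The polyanalytic Bergman space `A²_n`, as the closure of `polyanalytic n` in `L²` (which is
already closed). -/
noncomputable def bergman (n : ℕ) : Submodule ℂ Ltwo := (polyanalytic n).topologicalClosure

noncomputable instance instProj (n : ℕ) : (bergman n).HasOrthogonalProjection := by
  unfold bergman; infer_instance

/-- The orthogonal projection `P_n` of `L²` onto `A²_n`. -/
noncomputable def proj (n : ℕ) (h : Ltwo) : Ltwo := (bergman n).starProjection h

/-- The Toeplitz operator `T_f h = P_n (f h)` on `A²_n`. -/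
noncomputable def toeplitz (n : ℕ) (f : Linf) (h : Ltwo) : Ltwo := proj n (mul f h)

/-- `f` is radial: it depends only on `|z|`, almost everywhere. -/
def IsRadial (f : Linf) : Prop := ∃ φ : ℝ → ℂ, Measurable φ ∧ ∀ᵐ z ∂dA, f.fn z = φ ‖z‖

lemma toeplitz_eq (n : ℕ) (f : Linf) (h : Ltwo) :
    toeplitz n f h = (Pool.Agent.H174.Polyan.A2 n).starProjection
      (Pool.Agent.H174.Polyan.mulOp f h) := by
  have e : mul f h = Pool.Agent.H174.Polyan.mulOp f h := by
    apply Lp.ext
    filter_upwards [MemLp.coeFn_toLp (mul_memLp f h), Pool.Agent.H174.Polyan.mulOp_coe f h]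
      with z h1 h2
    exact h1.trans h2.symm
  unfold toeplitz proj
  rw [e]; rfl

/-- Zero product theorem. -/
theorem result (n : ℕ) (hn : 1 ≤ n) (f g : Linf) (hrad : IsRadial f ∨ IsRadial g)
    (h : ∀ u ∈ bergman n, toeplitz n f (toeplitz n g u) = 0) :
    (∀ᵐ z ∂dA, f.fn z = 0) ∨ (∀ᵐ z ∂dA, g.fn z = 0) := by
  have h0 := Pool.Agent.H174.Polyan.result0 n hn f g hrad (ContinuousLinearMap.ext fun u => by
    have h1 := h u.1 u.2
    have h2 := (toeplitz_eq n f (toeplitz n g u.1)).symm.trans h1
    have h3 : toeplitz n g u.1 = (Pool.Agent.H174.Polyan.A2 n).starProjection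
      (Pool.Agent.H174.Polyan.mulOp g u.1) := toeplitz_eq n g u.1
    have h4 := (congrArg (fun w : Pool.Agent.H174.Polyan.L20 =>
      (Pool.Agent.H174.Polyan.A2 n).starProjection (Pool.Agent.H174.Polyan.mulOp f w)) h3).symm.trans h2
    exact Subtype.ext h4)
  rcases h0 with h0 | h0
  · left
    have := Lp.coeFn_zero ℂ ∞ Pool.Agent.H174.Polyan.dA
    filter_upwards [this] with z hz
    have e : f.fn = ((0 : Lp ℂ ∞ Pool.Agent.H174.Polyan.dA) : ℂ → ℂ) :=
      congrArg (fun u : Lp ℂ ∞ Pool.Agent.H174.Polyan.dA => (u : ℂ → ℂ)) h0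
    rw [e, hz]; rfl
  · right
    have := Lp.coeFn_zero ℂ ∞ Pool.Agent.H174.Polyan.dA
    filter_upwards [this] with z hz
    have e : g.fn = ((0 : Lp ℂ ∞ Pool.Agent.H174.Polyan.dA) : ℂ → ℂ) :=
      congrArg (fun u : Lp ℂ ∞ Pool.Agent.H174.Polyan.dA => (u : ℂ → ℂ)) h0
    rw [e, hz]; rfl

end Pool.Agent.Results.MP_119a45_an.ZeroProduct
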